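import Pool.Agent.N158.PC.Stm

namespace Pool.Agent.N227.PC

open Pool.Agent.N158.PC

theorem num : T_NUM := by
  intro n hn
  -- the largest admissible parameter
  have hP1 : (2 ^ (2 * 1 + 1) + 1) * 2 ^ 1 ≤ n := by norm_num; exact hn
  have hbd : ∀ b : ℕ, (2 ^ (2 * b + 1) + 1) * 2 ^ b ≤ n → b ≤ n := by
    intro b hb
    have h1 : b < 2 ^ b := Nat.lt_two_pow_self
    have h2 : 2 ^ b ≤ (2 ^ (2 * b + 1) + 1) * 2 ^ b := Nat.le_mul_of_pos_left _ (by positivity)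
    omega
  obtain ⟨b, hb1, hb2, hb3⟩ : ∃ b : ℕ, 1 ≤ b ∧ (2 ^ (2 * b + 1) + 1) * 2 ^ b ≤ n ∧
      n < (2 ^ (2 * (b + 1) + 1) + 1) * 2 ^ (b + 1) := by
    have hg := Nat.findGreatest_spec (P := fun b => (2 ^ (2 * b + 1) + 1) * 2 ^ b ≤ n)
      (m := 1) (n := n) (by omega) hP1
    refine ⟨Nat.findGreatest (fun b => (2 ^ (2 * b + 1) + 1) * 2 ^ b ≤ n) n,
      Nat.le_findGreatest (by omega) hP1, hg, ?_⟩
    by_contra hcon
    have hcon' : (2 ^ (2 * (Nat.findGreatest (fun b => (2 ^ (2 * b + 1) + 1) * 2 ^ b ≤ n) n + 1) + 1)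
      + 1) * 2 ^ (Nat.findGreatest (fun b => (2 ^ (2 * b + 1) + 1) * 2 ^ b ≤ n) n + 1) ≤ n := by
      omega
    have h3 := Nat.le_findGreatest (P := fun b => (2 ^ (2 * b + 1) + 1) * 2 ^ b ≤ n)
      (hbd _ hcon') hcon'
    omega
  refine ⟨b, hb1, hb2, ?_⟩
  have hnpos : (0 : ℝ) < n := by exact_mod_cast (by omega : 0 < n)
  have hb1' : (1 : ℝ) ≤ b := by exact_mod_cast hb1
  -- n < 2^(3b+5)
  have hn5 : (n : ℝ) ≤ 2 ^ (3 * b + 5) := by
    have h1 : (2 ^ (2 * (b + 1) + 1) + 1) * 2 ^ (b + 1) ≤ 2 ^ (3 * b + 5) := by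
      have e1 : (2 : ℕ) ^ (3 * b + 5) = (2 ^ (2 * (b + 1) + 1) * 2) * 2 ^ (b + 1) := by
        rw [← pow_succ, ← pow_add]; congr 1; ring
      rw [e1]
      apply Nat.mul_le_mul_right
      have : 1 ≤ 2 ^ (2 * (b + 1) + 1) := Nat.one_le_two_pow
      omega
    have h2 : n ≤ 2 ^ (3 * b + 5) := by omega
    exact_mod_cast h2
  have hlog : Real.log n ≤ (3 * b + 5) * 0.7 := by
    have h1 : Real.log n ≤ Real.log (2 ^ (3 * b + 5)) := Real.log_le_log hnpos hn5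
    rw [Real.log_pow] at h1
    push_cast at h1
    have h2 : Real.log 2 ≤ 0.7 := by
      have := Real.log_two_lt_d9; linarith
    have h3 : (3 * (b : ℝ) + 5) * Real.log 2 ≤ (3 * b + 5) * 0.7 :=
      mul_le_mul_of_nonneg_left h2 (by positivity)
    linarith
  have e2 : (2 : ℝ) * 2 ^ (2 * b + 1) * (2 ^ b * (2 * (b : ℝ) - 2) + 4)
      = 2 ^ (3 * b + 2) * (2 * (b : ℝ) - 2) + 2 ^ (2 * b + 4) := by
    have h1 : (2 : ℝ) ^ (3 * b + 2) = 2 * 2 ^ (2 * b + 1) * 2 ^ b := by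
      rw [← pow_succ', ← pow_add]; congr 1; ring
    have h2 : (2 : ℝ) ^ (2 * b + 4) = 2 * 2 ^ (2 * b + 1) * 4 := by
      have : (4 : ℝ) = 2 ^ 2 := by norm_num
      rw [this, ← pow_succ', ← pow_add]
    rw [h1, h2]; ring
  rw [e2]
  have hpos4 : (0 : ℝ) < 2 ^ (2 * b + 4) := by positivity
  have hpos3 : (0 : ℝ) < 2 ^ (3 * b + 2) := by positivity
  by_cases hb : b = 1
  · subst hb
    have h1 : Real.log n ≤ 64 := by
      norm_num at hlog ⊢; linarith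
    have h2 : (1 / 64 : ℝ) * n * Real.log n ≤ n := by
      have := mul_le_mul_of_nonneg_left h1 hnpos.le
      linarith
    norm_num at *
    linarith
  · have hb2' : (2 : ℝ) ≤ b := by
      have : 2 ≤ b := by omega
      exact_mod_cast this
    have h1 : (1 / 64 : ℝ) * n * Real.log n ≤ (1 / 64) * n * ((3 * b + 5) * 0.7) :=
      mul_le_mul_of_nonneg_left hlog (by positivity)
    have h2 : (1 / 64 : ℝ) * n * ((3 * b + 5) * 0.7) ≤
        (1 / 64) * 2 ^ (3 * b + 5) * ((3 * b + 5) * 0.7) := by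
      have h3 : (0 : ℝ) ≤ (3 * b + 5) * 0.7 := by positivity
      have h4 := mul_le_mul_of_nonneg_right hn5 h3
      linarith
    have e5 : (2 : ℝ) ^ (3 * b + 5) = 2 ^ (3 * b + 2) * 8 := by
      have : (8 : ℝ) = 2 ^ 3 := by norm_num
      rw [this, ← pow_add]
    rw [e5] at h2
    have h5 : (1 / 64 : ℝ) * (2 ^ (3 * b + 2) * 8) * ((3 * b + 5) * 0.7) ≤
        2 ^ (3 * b + 2) * (2 * (b : ℝ) - 2) := by
      have h6 : (1 / 64 : ℝ) * 8 * ((3 * b + 5) * 0.7) ≤ 2 * (b : ℝ) - 2 := by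
        norm_num; linarith
      have h7 := mul_le_mul_of_nonneg_left h6 hpos3.le
      linarith
    linarith

end Pool.Agent.N227.PC
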